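import Mathlib

set_option autoImplicit false

namespace Pool.Agent.Results.MP_0ef12e_an.Root

open Set

variable {A : Type}

/-- the random substitution applied to a word (set concatenation). -/
def app (ϑ : A → Finset (List A)) : List A → Set (List A)
  | [] => {[]}
  | a :: l => {w | ∃ u ∈ ϑ a, ∃ v ∈ app ϑ l, w = u ++ v}

/-- the set of words `ϑ^p(a)`. -/
def iter (ϑ : A → Finset (List A)) (a : A) : ℕ → Set (List A)
  | 0 => {[a]}
  | p + 1 => {w | ∃ v ∈ iter ϑ a p, w ∈ app ϑ v}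

/-- legal words. -/
def Legal (ϑ : A → Finset (List A)) (w : List A) : Prop :=
  ∃ (a : A) (p : ℕ), ∃ v ∈ iter ϑ a p, w <:+: v

/-- the RS-subshift. -/
def XS (ϑ : A → Finset (List A)) : Set (ℤ → A) :=
  {x | ∀ (i : ℤ) (n : ℕ), Legal ϑ ((List.range n).map fun j : ℕ => x (i + j))}

def W : Finset (List (Fin 3)) := {[0, 1, 0, 0, 2], [0, 1, 0, 2, 0], [1, 0, 0, 0, 2], [1, 0, 0, 2, 0]}

def ϑ0 : Fin 3 → Finset (List (Fin 3)) := fun _ => W

def win (y : ℕ → Fin 3) (i n : ℕ) : List (Fin 3) := (List.range n).map fun j => y (i + j)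

def C (y : ℕ → Fin 3) : Prop :=
  ∀ m, [y (5 * m), y (5 * m + 1), y (5 * m + 2), y (5 * m + 3), y (5 * m + 4)] ∈ W

lemma win_add (y : ℕ → Fin 3) (i n k : ℕ) : win y i (n + k) = win y i n ++ win y (i + n) k := by
  simp [win, List.range_add, add_assoc]

lemma win5 (y : ℕ → Fin 3) (i : ℕ) :
    win y i 5 = [y i, y (i + 1), y (i + 2), y (i + 3), y (i + 4)] := rfl

lemma win_app (w : List (Fin 3)) (y : ℕ → Fin 3) (hy : C y) (m : ℕ) :
    win y (5 * m) (5 * w.length) ∈ app ϑ0 w := by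
  induction w generalizing m with
  | nil => rfl
  | cons a l ih =>
    refine ⟨_, hy m, _, ih (m + 1), ?_⟩
    rw [List.length_cons, show 5 * (l.length + 1) = 5 + 5 * l.length by ring, win_add, win5]
    rfl

lemma app_win (w : List (Fin 3)) : ∀ v ∈ app ϑ0 w, ∃ y, C y ∧ v = win y 0 v.length := by
  induction w with
  | nil =>
    rintro v rfl
    exact ⟨fun n => if n % 5 = 1 then 1 else if n % 5 = 4 then 2 else 0, fun m => by
      simp [W, Nat.add_mod], rfl⟩
  | cons a l ih =>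
    rintro _ ⟨u, hu, v, hv, rfl⟩
    obtain ⟨y, hy, e⟩ := ih v hv
    have hu5 : u = [u.getD 0 0, u.getD 1 0, u.getD 2 0, u.getD 3 0, u.getD 4 0] := by
      have : ∀ u ∈ W, u = [u.getD 0 0, u.getD 1 0, u.getD 2 0, u.getD 3 0, u.getD 4 0] := by decide
      exact this u hu
    refine ⟨fun n => if n < 5 then u.getD n 0 else y (n - 5), fun m => ?_, ?_⟩
    · rcases m with _ | m
      · simp only [mul_zero, zero_add]
        norm_num only [if_true]
        rw [← hu5]; exact hu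
      · have := hy m
        have h : ∀ r, ¬ 5 * (m + 1) + r < 5 := fun r => by omega
        have h' : ∀ r, 5 * (m + 1) + r - 5 = 5 * m + r := fun r => by omega
        have h0 := h 0
        have h0' := h' 0
        simp only [add_zero] at h0 h0'
        simp only [h, h', h0, h0', if_false]
        exact this
    · have hl : u.length = 5 := by rw [hu5]; rfl
      rw [List.length_append, hl, win_add, win5]
      norm_num only [if_true]
      rw [← hu5]
      congr 1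
      conv_lhs => rw [e]
      simp [win]

def y0 (n : ℕ) : Fin 3 := if n % 5 = 1 then 1 else if n % 5 = 4 then 2 else 0

lemma C_y0 : C y0 := fun m => by simp [y0, W, Nat.add_mod]

lemma legal_iff (w : List (Fin 3)) : Legal ϑ0 w ↔ ∃ y i, C y ∧ w = win y i w.length := by
  constructor
  · rintro ⟨a, p, v, hv, s, t, e⟩
    obtain ⟨y, i, hy, e2⟩ : ∃ y i, C y ∧ v = win y i v.length := by
      rcases p with _ | p
      · rw [hv]
        refine ⟨y0, if a = 1 then 1 else if a = 2 then 4 else 0, C_y0, ?_⟩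
        fin_cases a <;> rfl
      · obtain ⟨u, -, hu⟩ := hv
        obtain ⟨y, hy, e⟩ := app_win u v hu
        exact ⟨y, 0, hy, e⟩
    refine ⟨y, i + s.length, hy, ?_⟩
    rw [← e, List.length_append, List.length_append, win_add, win_add] at e2
    have h1 := List.append_inj_left' e2 (by simp [win])
    exact List.append_inj_right h1 (by simp [win])
  · rintro ⟨y, i, hy, e⟩
    have : ∀ p, ∃ v ∈ iter ϑ0 0 p, p < v.length := by
      intro p
      induction p with
      | zero => exact ⟨[0], rfl, by simp⟩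
      | succ p ih =>
        obtain ⟨v, hv, hl⟩ := ih
        exact ⟨_, ⟨v, hv, win_app v y hy 0⟩, by simp [win]; omega⟩
    obtain ⟨v, hv, hl⟩ := this (i + w.length)
    refine ⟨0, i + w.length + 1, _, ⟨v, hv, win_app v y hy 0⟩, win y 0 i,
      win y (i + w.length) (5 * v.length - (i + w.length)), ?_⟩
    rw [mul_zero]
    conv_rhs => rw [show 5 * v.length = i + w.length + (5 * v.length - (i + w.length)) by omega,
      win_add, win_add]
    rw [zero_add, zero_add, ← e]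

lemma mem_iff (x : ℤ → Fin 3) : x ∈ XS ϑ0 ↔
    ∀ (i : ℤ) (n : ℕ), ∃ y k, C y ∧ ∀ j < n, x (i + j) = y (k + j) := by
  refine forall₂_congr fun i n => ?_
  rw [legal_iff]
  refine exists₂_congr fun y k => and_congr_right fun _ => ?_
  simp [win]

def F (p q : Fin 3) : Fin 3 := if p = 1 then 2 else if q = 2 then 1 else 0

lemma C_F {y : ℕ → Fin 3} (hy : C y) : C fun n => F (y (n + 2)) (y (n + 3)) := by
  intro m
  have h1 := hy m
  have h2 := hy (m + 1)
  simp only [mul_add, mul_one, add_assoc] at h2 ⊢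
  norm_num only at h2 ⊢
  revert h1 h2
  generalize y (5 * m) = a0, y (5 * m + 1) = a1, y (5 * m + 2) = a2, y (5 * m + 3) = a3,
    y (5 * m + 4) = a4, y (5 * m + 5) = a5, y (5 * m + 6) = a6, y (5 * m + 7) = a7,
    y (5 * m + 8) = a8, y (5 * m + 9) = a9
  simp only [W, Finset.mem_insert, Finset.mem_singleton, List.cons.injEq]
  rintro (⟨rfl, rfl, rfl, rfl, rfl, -⟩ | ⟨rfl, rfl, rfl, rfl, rfl, -⟩ | ⟨rfl, rfl, rfl, rfl, rfl, -⟩ |
    ⟨rfl, rfl, rfl, rfl, rfl, -⟩) (⟨rfl, rfl, rfl, rfl, rfl, -⟩ | ⟨rfl, rfl, rfl, rfl, rfl, -⟩ |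
    ⟨rfl, rfl, rfl, rfl, rfl, -⟩ | ⟨rfl, rfl, rfl, rfl, rfl, -⟩) <;> decide

lemma C_no {y : ℕ → Fin 3} (hy : C y) (n : ℕ) (h : y n = 1) : y (n + 1) = 0 := by
  have h1 := hy (n / 5)
  have h2 := Nat.div_add_mod n 5
  have h3 := Nat.mod_lt n (show 0 < 5 by norm_num)
  generalize n / 5 = m at *
  generalize n % 5 = r at *
  subst h2
  simp only [W, Finset.mem_insert, Finset.mem_singleton, List.cons.injEq] at h1
  interval_cases r <;> simp_all [add_assoc] <;> grind

lemma no12 {x : ℤ → Fin 3} (hx : x ∈ XS ϑ0) (i : ℤ) (h : x i = 1) : x (i + 1) = 0 := by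
  obtain ⟨y, k, hy, e⟩ := (mem_iff x).1 hx i 2
  have e0 := e 0 (by norm_num)
  have e1 := e 1 (by norm_num)
  simp only [Nat.cast_zero, add_zero, Nat.cast_one] at e0 e1
  rw [e1]; exact C_no hy k (e0 ▸ h)

def f0 (s : ℤ) (x : XS ϑ0) : XS ϑ0 := ⟨fun i => F (x.1 (i + s)) (x.1 (i + s + 1)),
  (mem_iff _).2 fun i n => by
    obtain ⟨y, k, hy, e⟩ := (mem_iff _).1 x.2 (i + s - 2) (n + 3)
    refine ⟨_, k, C_F hy, fun j hj => ?_⟩
    have e1 := e (j + 2) (by omega)
    have e2 := e (j + 3) (by omega)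
    rw [add_assoc k, add_assoc k, ← e1, ← e2]
    congr 2 <;> push_cast <;> ring_nf⟩

lemma f0_cont (s : ℤ) : Continuous (f0 s) := by
  refine Continuous.subtype_mk (continuous_pi fun i => ?_) _
  exact (continuous_of_discreteTopology (f := fun q : Fin 3 × Fin 3 => F q.1 q.2)).comp
    (((continuous_apply (A := fun _ : ℤ => Fin 3) (i + s)).comp continuous_subtype_val).prodMk
      ((continuous_apply (A := fun _ : ℤ => Fin 3) (i + s + 1)).comp continuous_subtype_val))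

lemma f0_f0 (s t : ℤ) (x : XS ϑ0) (i : ℤ) : (f0 s (f0 t x)).1 i = x.1 (i + s + t + 1) := by
  have h1 := no12 x.2 (i + s + t)
  have h2 := no12 x.2 (i + s + t + 1)
  change F (F (x.1 (i + s + t)) (x.1 (i + s + t + 1)))
    (F (x.1 (i + s + 1 + t)) (x.1 (i + s + 1 + t + 1))) = _
  rw [show i + s + 1 + t = i + s + t + 1 by ring]
  revert h1 h2
  generalize x.1 (i + s + t) = a, x.1 (i + s + t + 1) = b, x.1 (i + s + t + 1 + 1) = c
  revert a b c; decide

theorem result : ∃ ϑ : Fin 3 → Finset (List (Fin 3)),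
    (∀ a, (ϑ a).Nonempty ∧ ∀ w ∈ ϑ a, w ≠ []) ∧
    (∀ a, ∀ u ∈ ϑ a, ∀ v ∈ ϑ a, ∀ b, u.count b = v.count b) ∧
    (∃ p, 1 ≤ p ∧ ∀ a b, ∃ w ∈ iter ϑ b p, a ∈ w) ∧ (∃ a, 2 ≤ (ϑ a).card) ∧ (XS ϑ).Nonempty ∧
    ∃ (f : XS ϑ ≃ₜ XS ϑ) (n : ℕ), 2 ≤ n ∧
      (∀ x y : XS ϑ, (∀ i, y.1 i = x.1 (i + 1)) → ∀ i, (f y).1 i = (f x).1 (i + 1)) ∧
      ∀ x i, (f^[n] x).1 i = x.1 (i + 1) := by
  refine ⟨ϑ0, by decide, by decide, ⟨1, le_rfl, fun a b => ⟨[0, 1, 0, 0, 2],
    ⟨[b], rfl, [0, 1, 0, 0, 2], by simp [ϑ0, W], [], rfl, rfl⟩, by revert a; decide⟩⟩,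
    ⟨0, by decide⟩, ⟨fun i => y0 (i % 5).toNat, (mem_iff _).2 fun i n =>
      ⟨y0, (i % 5).toNat, C_y0, fun j _ => ?_⟩⟩,
    { toFun := f0 0, invFun := f0 (-1)
      left_inv := fun x => Subtype.ext (funext fun i => by rw [f0_f0]; simp)
      right_inv := fun x => Subtype.ext (funext fun i => by rw [f0_f0]; simp)
      continuous_toFun := f0_cont _, continuous_invFun := f0_cont _ }, 2, le_rfl,
    fun x y h i => ?_, fun x i => ?_⟩
  · have : ((i + j) % 5).toNat % 5 = ((i % 5).toNat + j) % 5 := by omega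
    simp only [y0, this]
  · change F (y.1 (i + 0)) (y.1 (i + 0 + 1)) = F (x.1 (i + 1 + 0)) (x.1 (i + 1 + 0 + 1))
    simp [h]
  · change (f0 0 (f0 0 x)).1 i = _
    rw [f0_f0]; simp

end Pool.Agent.Results.MP_0ef12e_an.Root
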